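import Pool.Agent.PQP.StmtsE
import Pool.Agent.PQP.StmtsX

/-!
# Row pqp TAW (MP_5f32e0_gt): from TYT
-/

set_option autoImplicit false

open scoped InnerProductSpace Topology ContDiff Manifold
open MeasureTheory Filter Set

noncomputable section

namespace Pool.Agent.PQP.H87

open Pool.Agent.Helper42_Paneitz Pool.Agent.Helper82_Vir Pool.Agent.FLX Pool.Agent.PQP

theorem taw (h : TytStmt) : TawStmt := by
  intro ψ hψ
  obtain ⟨B, hB, hT⟩ := h ψ hψ
  refine ⟨B, hB, fun w z => ?_⟩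
  have h1 := hT.1 w z
  have e : ψ z - ψ w - dd ψ w ((z : E5) - (w : E5)) -
      1 / 2 * hess ψ w ((z : E5) - (w : E5)) ((z : E5) - (w : E5)) =
      ψ z - ψ w - dd ψ w ((z : E5) - (w : E5)) -
        hess ψ w ((z : E5) - (w : E5)) ((z : E5) - (w : E5)) / 2 := by ring
  rw [e]
  exact h1

end Pool.Agent.PQP.H87
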