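import Pool.Agent.PQP.StmtsE
import Pool.Agent.Helper54_FLX.All

/-!
# Row pqp BXA (MP_5f32e0_gt): box estimates
-/

set_option autoImplicit false
set_option linter.unusedSectionVars false
set_option linter.unusedVariables false

open scoped InnerProductSpace Topology ContDiff Manifold
open MeasureTheory Filter Set

noncomputable section

namespace Pool.Agent.PQP.H87

open Pool.Agent.Helper42_Paneitz Pool.Agent.Helper82_Vir Pool.Agent.FLX Pool.Agent.PQP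

/-! ### the coordinates -/

theorem norm_sq_add {p : S4} {v : E5} (h : ⟪(p : E5), v⟫_ℝ = 0) :
    ‖(p : E5) + v‖ ^ 2 = 1 + ‖v‖ ^ 2 := by
  rw [norm_add_sq_real, h, S4_norm]
  ring

theorem sqrt_pos' (v : E5) : 0 < √(1 + ‖v‖ ^ 2) := Real.sqrt_pos.2 (by positivity)

theorem norm_wv {p : S4} {v : E5} (h : ⟪(p : E5), v⟫_ℝ = 0) : ‖wv p v‖ = 1 := by
  have h1 : ‖(p : E5) + v‖ = √(1 + ‖v‖ ^ 2) := by
    rw [← norm_sq_add h, Real.sqrt_sq (norm_nonneg _)]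
  unfold wv
  rw [norm_smul, h1, norm_inv, Real.norm_of_nonneg (sqrt_pos' v).le,
    inv_mul_cancel₀ (sqrt_pos' v).ne']

/-- the point of the sphere -/
def wS (p : S4) (v : E5) (h : ⟪(p : E5), v⟫_ℝ = 0) : S4 :=
  ⟨wv p v, mem_sphere_zero_iff_norm.2 (norm_wv h)⟩

theorem wS_coe (p : S4) (v : E5) (h : ⟪(p : E5), v⟫_ℝ = 0) : (wS p v h : E5) = wv p v := rfl

theorem norm_wv_sub {p : S4} {v : E5} (h : ⟪(p : E5), v⟫_ℝ = 0) :
    ‖wv p v - (p : E5)‖ ≤ ‖v‖ := by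
  have h0 := sqrt_pos' v
  have h1 : ⟪wv p v, (p : E5)⟫_ℝ = (√(1 + ‖v‖ ^ 2))⁻¹ := by
    unfold wv
    rw [real_inner_smul_left, inner_add_left, real_inner_self_eq_norm_sq, S4_norm,
      real_inner_comm, h]
    ring
  have h2 : ‖wv p v - (p : E5)‖ ^ 2 = 2 - 2 * (√(1 + ‖v‖ ^ 2))⁻¹ := by
    rw [norm_sub_sq_real, norm_wv h, S4_norm, h1]
    ring
  have h3 : 2 - 2 * (√(1 + ‖v‖ ^ 2))⁻¹ ≤ ‖v‖ ^ 2 := by
    set x := ‖v‖ ^ 2 with hx
    have hx0 : 0 ≤ x := by positivity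
    have h4 : √(1 + x) ≤ 1 + x / 2 := by
      rw [Real.sqrt_le_left (by linarith)]
      nlinarith
    have h5 : (1 + x / 2)⁻¹ ≤ (√(1 + x))⁻¹ := inv_anti₀ h0 h4
    have h6 : 1 - x / 2 ≤ (1 + x / 2)⁻¹ := by
      rw [← one_div, le_div_iff₀ (by linarith)]
      nlinarith
    linarith
  exact le_of_sq_le_sq (by rw [h2]; exact h3) (norm_nonneg _)

/-! ### arithmetic -/

section arith
variable {X A k B M σ d : ℝ} (hX0 : 0 < X) (hX1 : X ≤ 1) (hA : 1 ≤ A) (hk : 1 ≤ k)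
  (hkX : k * X ≤ 1) (hB0 : 0 ≤ B) (hBX : B * X ≤ 1) (hM0 : 0 ≤ M) (hMX : M * X ^ 49 ≤ k)
  (hs0 : 0 < σ) (hs : σ ≤ A * X ^ 24) (hd0 : 0 ≤ d) (hd : d ≤ X ^ 18)

include hX0 hX1 hA in
theorem mono_AX {m n i j : ℕ} (h1 : m ≤ n) (h2 : i ≤ j) : A ^ m * X ^ j ≤ A ^ n * X ^ i := by
  have h3 : A ^ m ≤ A ^ n := pow_le_pow_right₀ hA h1
  have h4 : X ^ j ≤ X ^ i := pow_le_pow_of_le_one hX0.le hX1 h2
  exact mul_le_mul h3 h4 (by positivity) (by positivity)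

include hs0 hs in
theorem pow_s (n : ℕ) : σ ^ n ≤ A ^ n * X ^ (24 * n) := by
  calc σ ^ n ≤ (A * X ^ 24) ^ n := pow_le_pow_left₀ hs0.le hs n
    _ = A ^ n * X ^ (24 * n) := by rw [mul_pow, ← pow_mul]

include hd0 hd in
theorem pow_d (n : ℕ) : d ^ n ≤ X ^ (18 * n) := by
  calc d ^ n ≤ (X ^ 18) ^ n := pow_le_pow_left₀ hd0 hd n
    _ = X ^ (18 * n) := by rw [← pow_mul]

include hX0 hX1 hA hk hs0 hs hd0 hd in
theorem t1 : k * d ^ 2 * σ ^ 2 ≤ A ^ 6 * (k * X ^ 52) := by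
  have h1 := pow_s hs0 hs 2
  have h2 := pow_d hd0 hd 2
  have h3 := mono_AX (m := 2) (n := 6) (i := 52) (j := 84) hX0 hX1 hA (by norm_num) (by norm_num)
  calc k * d ^ 2 * σ ^ 2 ≤ k * X ^ (18 * 2) * (A ^ 2 * X ^ (24 * 2)) := by gcongr
    _ = k * (A ^ 2 * X ^ 84) := by ring
    _ ≤ k * (A ^ 6 * X ^ 52) := by gcongr
    _ = A ^ 6 * (k * X ^ 52) := by ring

include hX0 hX1 hA hB0 hBX hs0 hs in
theorem t2' : B * σ ^ 3 ≤ A ^ 3 * X ^ 71 := by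
  have h1 := pow_s hs0 hs 3
  calc B * σ ^ 3 ≤ B * (A ^ 3 * X ^ (24 * 3)) := by gcongr
    _ = (B * X) * (A ^ 3 * X ^ 71) := by ring
    _ ≤ 1 * (A ^ 3 * X ^ 71) := by gcongr
    _ = A ^ 3 * X ^ 71 := by ring

include hX0 hX1 hB0 hBX hd0 hd in
theorem t3' : B * d ^ 3 ≤ X ^ 53 := by
  have h1 := pow_d hd0 hd 3
  calc B * d ^ 3 ≤ B * X ^ (18 * 3) := by gcongr
    _ = (B * X) * X ^ 53 := by ring
    _ ≤ 1 * X ^ 53 := by gcongr
    _ = X ^ 53 := by ring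

include hX0 hX1 hA hk in
theorem up {m i : ℕ} (h1 : m ≤ 6) (h2 : 52 ≤ i) : A ^ m * X ^ i ≤ A ^ 6 * (k * X ^ 52) := by
  have h3 := mono_AX (m := m) (n := 6) (i := 52) (j := i) hX0 hX1 hA h1 h2
  have h4 : A ^ 6 * X ^ 52 ≤ A ^ 6 * (k * X ^ 52) := by
    have : X ^ 52 ≤ k * X ^ 52 := le_mul_of_one_le_left (by positivity) hk
    gcongr
  exact h3.trans h4

include hX0 hX1 hA hk hM0 hMX hs0 hs in
theorem tM {n i : ℕ} (hn : n ≤ 6) (hi : 24 * n = i + 49) : M * σ ^ n ≤ A ^ n * (k * X ^ i) := by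
  have h1 := pow_s hs0 hs n
  calc M * σ ^ n ≤ M * (A ^ n * X ^ (24 * n)) := by gcongr
    _ = (M * X ^ 49) * (A ^ n * X ^ i) := by rw [hi, pow_add]; ring
    _ ≤ k * (A ^ n * X ^ i) := by gcongr
    _ = A ^ n * (k * X ^ i) := by ring

include hX0 hX1 hA hk in
theorem upk {m i : ℕ} (h1 : m ≤ 6) (h2 : 52 ≤ i) :
    A ^ m * (k * X ^ i) ≤ A ^ 6 * (k * X ^ 52) := by
  have h3 := mono_AX (m := m) (n := 6) (i := 52) (j := i) hX0 hX1 hA h1 h2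
  calc A ^ m * (k * X ^ i) = k * (A ^ m * X ^ i) := by ring
    _ ≤ k * (A ^ 6 * X ^ 52) := by gcongr
    _ = A ^ 6 * (k * X ^ 52) := by ring

include hX0 hX1 hA hk hs0 hs in
theorem t6 : k * σ ^ 4 ≤ A ^ 6 * (k * X ^ 52) := by
  have h1 := pow_s hs0 hs 4
  calc k * σ ^ 4 ≤ k * (A ^ 4 * X ^ (24 * 4)) := by gcongr
    _ = A ^ 4 * (k * X ^ 96) := by ring
    _ ≤ A ^ 6 * (k * X ^ 52) := upk hX0 hX1 hA hk (by norm_num) (by norm_num)

include hX0 hX1 hA hk hB0 hBX hM0 hMX hs0 hs hd0 hd in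
theorem ar1 : k * d ^ 2 * σ ^ 2 + B * (σ ^ 3 + d ^ 3) + M * σ ^ 4 * (d + σ ^ 2) + k * σ ^ 4 ≤
    6 * A ^ 6 * (k * X ^ 52) := by
  have h1 := t1 hX0 hX1 hA hk hs0 hs hd0 hd
  have h2 := (t2' hX0 hX1 hA hB0 hBX hs0 hs).trans
    (up (m := 3) (i := 71) hX0 hX1 hA hk (by norm_num) (by norm_num))
  have h3 : B * d ^ 3 ≤ A ^ 6 * (k * X ^ 52) := by
    have h4 := up (m := 0) (i := 53) hX0 hX1 hA hk (by norm_num) (by norm_num)
    rw [pow_zero, one_mul] at h4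
    exact (t3' hX0 hX1 hB0 hBX hd0 hd).trans h4
  have h4 : M * σ ^ 4 * d ≤ A ^ 6 * (k * X ^ 52) := by
    have h5 := tM (n := 4) (i := 47) hX0 hX1 hA hk hM0 hMX hs0 hs (by norm_num) (by norm_num)
    calc M * σ ^ 4 * d ≤ A ^ 4 * (k * X ^ 47) * X ^ 18 := by gcongr
      _ = A ^ 4 * (k * X ^ 65) := by ring
      _ ≤ A ^ 6 * (k * X ^ 52) := upk hX0 hX1 hA hk (by norm_num) (by norm_num)
  have h5 : M * σ ^ 6 ≤ A ^ 6 * (k * X ^ 52) :=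
    (tM (n := 6) (i := 95) hX0 hX1 hA hk hM0 hMX hs0 hs (by norm_num) (by norm_num)).trans
      (upk hX0 hX1 hA hk (by norm_num) (by norm_num))
  have h6 := t6 hX0 hX1 hA hk hs0 hs
  have e : k * d ^ 2 * σ ^ 2 + B * (σ ^ 3 + d ^ 3) + M * σ ^ 4 * (d + σ ^ 2) + k * σ ^ 4 =
    k * d ^ 2 * σ ^ 2 + B * σ ^ 3 + B * d ^ 3 + M * σ ^ 4 * d + M * σ ^ 6 + k * σ ^ 4 := by ring
  rw [e]
  linarith

include hX0 hX1 hA hk hB0 hBX hM0 hMX hs0 hs hd0 hd in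
theorem ar2 : B * (σ ^ 3 + d ^ 3) + M * σ ^ 5 + k * σ ^ 4 ≤ 6 * A ^ 6 * (k * X ^ 52) := by
  have h2 := (t2' hX0 hX1 hA hB0 hBX hs0 hs).trans
    (up (m := 3) (i := 71) hX0 hX1 hA hk (by norm_num) (by norm_num))
  have h3 : B * d ^ 3 ≤ A ^ 6 * (k * X ^ 52) := by
    have h4 := up (m := 0) (i := 53) hX0 hX1 hA hk (by norm_num) (by norm_num)
    rw [pow_zero, one_mul] at h4
    exact (t3' hX0 hX1 hB0 hBX hd0 hd).trans h4
  have h5 : M * σ ^ 5 ≤ A ^ 6 * (k * X ^ 52) :=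
    (tM (n := 5) (i := 71) hX0 hX1 hA hk hM0 hMX hs0 hs (by norm_num) (by norm_num)).trans
      (upk hX0 hX1 hA hk (by norm_num) (by norm_num))
  have h6 := t6 hX0 hX1 hA hk hs0 hs
  have h7 : 0 ≤ A ^ 6 * (k * X ^ 52) := by positivity
  have e : B * (σ ^ 3 + d ^ 3) + M * σ ^ 5 + k * σ ^ 4 =
    B * σ ^ 3 + B * d ^ 3 + M * σ ^ 5 + k * σ ^ 4 := by ring
  rw [e]
  linarith

include hX0 hX1 hA in
theorem up3 {m i : ℕ} (h1 : m ≤ 4) (h2 : 30 ≤ i) : A ^ m * X ^ i ≤ A ^ 4 * X ^ 30 :=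
  mono_AX hX0 hX1 hA h1 h2

include hX0 hX1 hA hk hkX hB0 hBX hM0 hMX hs0 hs hd0 hd in
theorem ar3 : k * (σ ^ 2 + d ^ 2) + B * (σ ^ 3 + d ^ 3) + M * σ ^ (10 / 3 : ℝ) ≤
    5 * A ^ 4 * X ^ 30 := by
  have h1 : k * σ ^ 2 ≤ A ^ 4 * X ^ 30 := by
    have h0 := pow_s hs0 hs 2
    calc k * σ ^ 2 ≤ k * (A ^ 2 * X ^ (24 * 2)) := by gcongr
      _ = (k * X) * (A ^ 2 * X ^ 47) := by ring
      _ ≤ 1 * (A ^ 2 * X ^ 47) := by gcongr
      _ = A ^ 2 * X ^ 47 := by ring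
      _ ≤ _ := up3 hX0 hX1 hA (by norm_num) (by norm_num)
  have h2 : k * d ^ 2 ≤ A ^ 4 * X ^ 30 := by
    have h0 := pow_d hd0 hd 2
    have h9 := up3 (m := 0) (i := 35) hX0 hX1 hA (by norm_num) (by norm_num)
    calc k * d ^ 2 ≤ k * X ^ (18 * 2) := by gcongr
      _ = (k * X) * X ^ 35 := by ring
      _ ≤ 1 * X ^ 35 := by gcongr
      _ = A ^ 0 * X ^ 35 := by ring
      _ ≤ _ := h9
  have h3 := (t2' hX0 hX1 hA hB0 hBX hs0 hs).trans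
    (up3 (m := 3) (i := 71) hX0 hX1 hA (by norm_num) (by norm_num))
  have h4 : B * d ^ 3 ≤ A ^ 4 * X ^ 30 := by
    have h9 := up3 (m := 0) (i := 53) hX0 hX1 hA (by norm_num) (by norm_num)
    rw [pow_zero, one_mul] at h9
    exact (t3' hX0 hX1 hB0 hBX hd0 hd).trans h9
  have h5 : M * σ ^ (10 / 3 : ℝ) ≤ A ^ 4 * X ^ 30 := by
    have h6 : σ ^ (10 / 3 : ℝ) ≤ (A * X ^ 24) ^ (10 / 3 : ℝ) :=
      Real.rpow_le_rpow hs0.le hs (by norm_num)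
    have h7 : (A * X ^ 24) ^ (10 / 3 : ℝ) = A ^ (10 / 3 : ℝ) * X ^ 80 := by
      rw [Real.mul_rpow (by linarith) (by positivity)]
      congr 1
      rw [← Real.rpow_natCast X 24, ← Real.rpow_mul hX0.le, ← Real.rpow_natCast X 80]
      norm_num
    have h8 : A ^ (10 / 3 : ℝ) ≤ A ^ 4 := by
      rw [← Real.rpow_natCast A 4]
      exact Real.rpow_le_rpow_of_exponent_le hA (by norm_num)
    calc M * σ ^ (10 / 3 : ℝ) ≤ M * (A ^ 4 * X ^ 80) := by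
          refine mul_le_mul_of_nonneg_left ?_ hM0
          rw [h7] at h6
          exact h6.trans (mul_le_mul_of_nonneg_right h8 (by positivity))
      _ = (M * X ^ 49) * (A ^ 4 * X ^ 31) := by ring
      _ ≤ k * (A ^ 4 * X ^ 31) := by gcongr
      _ = (k * X) * (A ^ 4 * X ^ 30) := by ring
      _ ≤ 1 * (A ^ 4 * X ^ 30) := by gcongr
      _ = A ^ 4 * X ^ 30 := by ring
  have e : k * (σ ^ 2 + d ^ 2) + B * (σ ^ 3 + d ^ 3) + M * σ ^ (10 / 3 : ℝ) =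
    k * σ ^ 2 + k * d ^ 2 + B * σ ^ 3 + B * d ^ 3 + M * σ ^ (10 / 3 : ℝ) := by ring
  rw [e]
  linarith

include hX0 hX1 hA hk hkX hM0 hMX hs0 hs in
theorem ar4 : (6 + M) * σ ^ 4 ≤ 7 * A ^ 4 * X := by
  have h1 : σ ^ 4 ≤ A ^ 4 * X ^ 1 := by
    have h0 := pow_s hs0 hs 4
    exact h0.trans (mono_AX hX0 hX1 hA le_rfl (by norm_num))
  have h2 : M * σ ^ 4 ≤ A ^ 4 * X ^ 1 := by
    have h5 := tM (n := 4) (i := 47) hX0 hX1 hA hk hM0 hMX hs0 hs (by norm_num) (by norm_num)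
    calc M * σ ^ 4 ≤ A ^ 4 * (k * X ^ 47) := h5
      _ = (k * X) * (A ^ 4 * X ^ 46) := by ring
      _ ≤ 1 * (A ^ 4 * X ^ 46) := by gcongr
      _ = A ^ 4 * X ^ 46 := by ring
      _ ≤ _ := mono_AX hX0 hX1 hA le_rfl (by norm_num)
  rw [pow_one] at h1 h2
  nlinarith

end arith

/-! ### the mass outside the ball -/

theorem mass_le {b : E5} (hb : ‖b‖ < 1) {p : S4} {ρ M V : ℝ} {q w : S4 → ℝ} (hM0 : 0 ≤ M)
    (hfar : ∀ z : S4, ρ ≤ ‖(z : E5) - (p : E5)‖ → |q z| ≤ M)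
    (hw : ∀ y, |w (mob b y) + Real.log (Jac b y) / 4| ≤ 1 / 4)
    (hV : sig.real {y : S4 | ρ ≤ ‖(mob b y : E5) - (p : E5)‖} ≤ V) :
    ∫ z in {z : S4 | ρ ≤ ‖(z : E5) - (p : E5)‖}, |6 + q z| * Real.exp (4 * w z) ∂sig ≤
      3 * (6 + M) * V := by
  set Z : Set S4 := {z : S4 | ρ ≤ ‖(z : E5) - (p : E5)‖} with hZ
  have hZm : MeasurableSet Z := by
    refine (isClosed_le continuous_const ?_).measurableSet
    fun_prop
  have hJ : ∀ y, 0 < Jac b y := fun y => by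
    have h1 := (H54.moa_all b hb).1 y
    have h2 : 0 < 1 - ‖b‖ ^ 2 := by
      have := norm_nonneg b
      nlinarith
    unfold Jac
    positivity
  have hmobc : Continuous (mob b) := by
    rw [continuous_iff_continuousAt]
    intro x
    have h1 := H54.mos_all.1.comp_continuous (f := fun x : S4 => (b, x))
      (continuous_const.prodMk continuous_id) (fun x => hb)
    exact h1.continuousAt
  set F : Set S4 := {y : S4 | ρ ≤ ‖(mob b y : E5) - (p : E5)‖} with hF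
  have hFm : MeasurableSet F := hZm.preimage hmobc.measurable
  rw [← integral_indicator hZm, ← H54.mom_all b hb]
  have h1 : ∀ y, (Z.indicator fun z => |6 + q z| * Real.exp (4 * w z)) (mob b y) * Jac b y ≤
      F.indicator (fun _ => 3 * (6 + M)) y := by
    intro y
    by_cases hy : y ∈ F
    · have hy2 : mob b y ∈ Z := hy
      rw [indicator_of_mem hy2, indicator_of_mem hy]
      have h2 : |6 + q (mob b y)| ≤ 6 + M := by
        have h3 := hfar (mob b y) hy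
        have h4 := abs_add_le 6 (q (mob b y))
        rw [abs_of_pos (by norm_num : (0 : ℝ) < 6)] at h4
        linarith
      have h5 : Real.exp (4 * w (mob b y)) * Jac b y ≤ 3 := by
        have h6 : Jac b y = Real.exp (Real.log (Jac b y)) := (Real.exp_log (hJ y)).symm
        rw [h6, ← Real.exp_add]
        have h7 := (abs_le.1 (hw y)).2
        have h8 : Real.exp (4 * w (mob b y) + Real.log (Jac b y)) ≤ Real.exp 1 :=
          Real.exp_le_exp.2 (by linarith)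
        have h9 := Real.exp_one_lt_d9
        linarith
      have h10 : 0 ≤ Real.exp (4 * w (mob b y)) * Jac b y :=
        mul_nonneg (Real.exp_pos _).le (hJ y).le
      calc |6 + q (mob b y)| * Real.exp (4 * w (mob b y)) * Jac b y
          = |6 + q (mob b y)| * (Real.exp (4 * w (mob b y)) * Jac b y) := by ring
        _ ≤ (6 + M) * 3 := mul_le_mul h2 h5 h10 (by linarith)
        _ = 3 * (6 + M) := by ring
    · have hy2 : mob b y ∉ Z := hy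
      rw [indicator_of_notMem hy2, indicator_of_notMem hy, zero_mul]
  have h0 : ∀ y, 0 ≤ (Z.indicator fun z => |6 + q z| * Real.exp (4 * w z)) (mob b y) * Jac b y := by
    intro y
    refine mul_nonneg (indicator_nonneg (fun z _ => ?_) _) (hJ y).le
    positivity
  have h2 : ∫ y, (Z.indicator fun z => |6 + q z| * Real.exp (4 * w z)) (mob b y) * Jac b y ∂sig ≤
      ∫ y, F.indicator (fun _ => 3 * (6 + M)) y ∂sig := by
    refine integral_mono_of_nonneg (Eventually.of_forall h0) ?_ (Eventually.of_forall h1)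
    exact (integrable_const _).indicator hFm
  refine h2.trans ?_
  rw [integral_indicator hFm, setIntegral_const, smul_eq_mul, mul_comm]
  exact mul_le_mul_of_nonneg_left hV (by positivity)

/-! ### the row -/

theorem root_props {s : ℝ} (hs : 0 < s) :
    (s ^ (1 / 24 : ℝ)) ^ 24 = s ∧ (s ^ (1 / 24 : ℝ)) ^ 18 = s ^ (3 / 4 : ℝ) ∧
      (s ^ (1 / 24 : ℝ)) ^ 52 = s ^ (13 / 6 : ℝ) ∧
      (s ^ (1 / 24 : ℝ))⁻¹ = s ^ (-(1 / 24) : ℝ) := by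
  have h : ∀ n : ℕ, (s ^ (1 / 24 : ℝ)) ^ n = s ^ (1 / 24 * n : ℝ) := fun n => by
    rw [← Real.rpow_natCast, ← Real.rpow_mul hs.le]
  refine ⟨?_, ?_, ?_, ?_⟩
  · rw [h]; norm_num
  · rw [h]; norm_num
  · rw [h]; norm_num
  · rw [Real.rpow_neg hs.le]

theorem comp_le {b β : E5} {q : S4 → ℝ} {CR CX T0 A X k Y E : ℝ} (hqc : Continuous q)
    (hmobc : Continuous (mob b)) (e' : E5) (he : ‖e'‖ ≤ 1)
    (hβ : ‖β - ∫ y : S4, q (mob b y) • (y : E5) ∂sig‖ ≤ CR * (T0 * X ^ 30) ^ 2) (hk : 1 ≤ k)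
    (hX0 : 0 < X) (hX1 : X ≤ 1) (hCR : 0 ≤ CR)
    (h1 : |(∫ y, q (mob b y) * ⟪e', (y : E5)⟫_ℝ ∂sig) - Y| ≤ CX * E)
    (h2 : E ≤ 6 * A ^ 6 * (k * X ^ 52)) (hCX : 0 ≤ CX) :
    |⟪e', β⟫_ℝ - Y| ≤ (6 * CX * A ^ 6 + CR * T0 ^ 2) * k * X ^ 52 := by
  have h3 := H40.inner_integral_smul (h := fun y => q (mob b y)) (hqc.comp hmobc) e'
  have h4 : ⟪e', β⟫_ℝ - Y = ⟪e', β - ∫ y : S4, q (mob b y) • (y : E5) ∂sig⟫_ℝ +
      ((∫ y, q (mob b y) * ⟪e', (y : E5)⟫_ℝ ∂sig) - Y) := by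
    rw [inner_sub_right, h3]
    ring
  have h5 : |⟪e', β - ∫ y : S4, q (mob b y) • (y : E5) ∂sig⟫_ℝ| ≤ CR * T0 ^ 2 * (k * X ^ 52) := by
    have h6 := abs_real_inner_le_norm e' (β - ∫ y : S4, q (mob b y) • (y : E5) ∂sig)
    have h7 : X ^ 60 ≤ k * X ^ 52 := by
      have h8 : X ^ 60 ≤ X ^ 52 := pow_le_pow_of_le_one hX0.le hX1 (by norm_num)
      have h9 : X ^ 52 ≤ k * X ^ 52 := le_mul_of_one_le_left (by positivity) hk
      exact h8.trans h9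
    calc _ ≤ ‖e'‖ * ‖β - ∫ y : S4, q (mob b y) • (y : E5) ∂sig‖ := h6
      _ ≤ 1 * (CR * (T0 * X ^ 30) ^ 2) := mul_le_mul he hβ (norm_nonneg _) zero_le_one
      _ = CR * T0 ^ 2 * X ^ 60 := by ring
      _ ≤ CR * T0 ^ 2 * (k * X ^ 52) := mul_le_mul_of_nonneg_left h7 (by positivity)
  have h6 : CX * E ≤ CX * (6 * A ^ 6 * (k * X ^ 52)) := mul_le_mul_of_nonneg_left h2 hCX
  rw [h4]
  calc _ ≤ |⟪e', β - ∫ y : S4, q (mob b y) • (y : E5) ∂sig⟫_ℝ| +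
        |(∫ y, q (mob b y) * ⟪e', (y : E5)⟫_ℝ ∂sig) - Y| := abs_add_le _ _
    _ ≤ CR * T0 ^ 2 * (k * X ^ 52) + CX * (6 * A ^ 6 * (k * X ^ 52)) := by linarith
    _ = (6 * CX * A ^ 6 + CR * T0 ^ 2) * k * X ^ 52 := by ring

theorem bxa (hXPN : XpnStmt) (hSBQ : SbqStmt) (hRED : RedStmt) (hFAV : FavStmt) : BxaStmt := by
  obtain ⟨c, C₀, hc, hX⟩ := hXPN
  refine ⟨c, C₀, hc, ?_⟩
  intro p T ρ hG a ha0 ha1
  obtain ⟨CX, l₀, hCX, hl0, hl1, hX⟩ := hX p T ρ hG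
  obtain ⟨CS, hCS, hS⟩ := hSBQ p T ρ hG
  obtain ⟨τ₀, CR, hτ₀, hCR, hR⟩ := hRED
  have hρ := hG.pos
  obtain ⟨CF, hCF, hF⟩ := hFAV (ρ / 2) (by positivity)
  have hm := msig_pos
  obtain ⟨A, hAdef⟩ : ∃ A : ℝ, A = a⁻¹ := ⟨_, rfl⟩
  have hA : 1 ≤ A := by rw [hAdef]; exact (one_le_inv₀ ha0).2 ha1.le
  have haA : a * A = 1 := by rw [hAdef]; exact mul_inv_cancel₀ ha0.ne'
  obtain ⟨T0, hT0⟩ : ∃ T0 : ℝ, T0 = CS * (5 * A ^ 4) := ⟨_, rfl⟩
  have hT0n : 0 ≤ T0 := by rw [hT0]; positivity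
  -- the threshold
  obtain ⟨X₀, hX₀⟩ : ∃ X₀ : ℝ, X₀ = min (min (a / 2) (a * (1 - l₀))) (min (min (ρ / 2)
    (τ₀ / (T0 + 1))) (min (1 / (4 * (CR * T0 + 1))) (msig / (21 * CF * A ^ 4 + 1)))) := ⟨_, rfl⟩
  have hX₀p : 0 < X₀ := by
    rw [hX₀]
    refine lt_min (lt_min (by positivity) (mul_pos ha0 (by linarith))) (lt_min (lt_min ?_ ?_)
      (lt_min ?_ ?_)) <;> positivity
  have k1 : X₀ ≤ a / 2 := by rw [hX₀]; exact (min_le_left _ _).trans (min_le_left _ _)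
  have k2 : X₀ ≤ a * (1 - l₀) := by rw [hX₀]; exact (min_le_left _ _).trans (min_le_right _ _)
  have k3 : X₀ ≤ ρ / 2 := by
    rw [hX₀]; exact (min_le_right _ _).trans ((min_le_left _ _).trans (min_le_left _ _))
  have k4 : X₀ ≤ τ₀ / (T0 + 1) := by
    rw [hX₀]; exact (min_le_right _ _).trans ((min_le_left _ _).trans (min_le_right _ _))
  have k5 : X₀ ≤ 1 / (4 * (CR * T0 + 1)) := by
    rw [hX₀]; exact (min_le_right _ _).trans ((min_le_right _ _).trans (min_le_left _ _))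
  have k6 : X₀ ≤ msig / (21 * CF * A ^ 4 + 1) := by
    rw [hX₀]; exact (min_le_right _ _).trans ((min_le_right _ _).trans (min_le_right _ _))
  have hX₀1 : X₀ ≤ 1 := by linarith
  have hpow : X₀ ^ 24 ≤ X₀ := by
    have := pow_le_pow_of_le_one hX₀p.le hX₀1 (show 1 ≤ 24 by norm_num)
    rwa [pow_one] at this
  refine ⟨X₀ ^ 24, 6 * CX * A ^ 6 + CR * T0 ^ 2, by positivity, by linarith, by linarith,
    by positivity, ?_⟩
  intro q k B M s hCon hs hs0 hsk hks hBs hMs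
  -- the variable `X`
  obtain ⟨X, hXdef⟩ : ∃ X : ℝ, X = s ^ (1 / 24 : ℝ) := ⟨_, rfl⟩
  have hXp : 0 < X := by rw [hXdef]; exact Real.rpow_pos_of_pos hs _
  obtain ⟨e1, e2, e3, e4⟩ := root_props hs
  rw [← hXdef] at e1 e2 e3 e4
  have hXX : X ≤ X₀ := by
    have h1 : X ^ 24 ≤ X₀ ^ 24 := by rw [e1]; exact hs0
    exact (pow_le_pow_iff_left₀ hXp.le hX₀p.le (by norm_num)).1 h1
  have hX1 : X ≤ 1 := hXX.trans hX₀1
  have hk := hCon.one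
  have hB0 := hCon.B0
  have hM0 := hCon.M0
  have hkX : k * X ≤ 1 := by
    rw [← e4] at hks
    calc k * X ≤ X⁻¹ * X := mul_le_mul_of_nonneg_right hks hXp.le
      _ = 1 := inv_mul_cancel₀ hXp.ne'
  have hBX : B * X ≤ 1 := by
    rw [← e4] at hBs
    calc B * X ≤ X⁻¹ * X := mul_le_mul_of_nonneg_right hBs hXp.le
      _ = 1 := inv_mul_cancel₀ hXp.ne'
  have hMX : M * X ^ 49 ≤ k := by
    rw [← e4] at hMs
    calc M * X ^ 49 ≤ X⁻¹ * |GG p ρ q| * X ^ 49 := mul_le_mul_of_nonneg_right hMs (by positivity)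
      _ = (X ^ 24) ^ 2 * |GG p ρ q| := by field_simp
      _ = k := by rw [e1, hsk]
  -- the parameters
  have hσ : ∀ σ : ℝ, a * s ≤ σ → σ ≤ s / a → 0 < σ ∧ σ ≤ A * X ^ 24 ∧ σ ≤ 1 - l₀ ∧ σ ≤ 1 / 2 := by
    intro σ h1 h2
    have h3 : 0 < σ := lt_of_lt_of_le (mul_pos ha0 hs) h1
    have h4 : σ ≤ A * X ^ 24 := by rw [e1, hAdef]; rw [div_eq_inv_mul] at h2; exact h2
    have h5 : X ^ 24 ≤ X₀ := (pow_le_pow_left₀ hXp.le hXX 24).trans hpow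
    have h6 : A * X ^ 24 ≤ A * X₀ := mul_le_mul_of_nonneg_left h5 (by linarith)
    have h7 : A * X₀ ≤ A * (a * (1 - l₀)) := mul_le_mul_of_nonneg_left k2 (by linarith)
    have h8 : A * (a * (1 - l₀)) = 1 - l₀ := by
      rw [← mul_assoc, mul_comm A a, haA, one_mul]
    have h9 : A * X₀ ≤ A * (a / 2) := mul_le_mul_of_nonneg_left k1 (by linarith)
    have h10 : A * (a / 2) = 1 / 2 := by
      rw [← mul_div_assoc, mul_comm A a, haA]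
    exact ⟨h3, h4, by linarith, by linarith⟩
  have hl : ∀ σ : ℝ, 0 < σ → σ ≤ 1 - l₀ → σ ≤ 1 / 2 → l₀ ≤ √(1 - σ ^ 2) ∧ √(1 - σ ^ 2) < 1 ∧
      √(1 - (√(1 - σ ^ 2)) ^ 2) = σ := by
    intro σ h1 h2 h3
    have h4 : 0 ≤ 1 - σ ^ 2 := by nlinarith
    refine ⟨?_, ?_, ?_⟩
    · rw [Real.le_sqrt (by linarith) h4]
      nlinarith
    · rw [Real.sqrt_lt' one_pos]
      nlinarith [sq_pos_of_pos h1]
    · rw [Real.sq_sqrt h4]
      have : 1 - (1 - σ ^ 2) = σ ^ 2 := by ring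
      rw [this, Real.sqrt_sq h1.le]
  have hd : ∀ v : E5, ⟪(p : E5), v⟫_ℝ = 0 → ‖v‖ ≤ s ^ (3 / 4 : ℝ) →
      ‖wv p v - (p : E5)‖ ≤ X ^ 18 ∧ ‖wv p v - (p : E5)‖ ≤ ρ / 2 := by
    intro v h1 h2
    have h3 := norm_wv_sub h1
    rw [← e2] at h2
    have h4 : X ^ 18 ≤ X := by
      have := pow_le_pow_of_le_one hXp.le hX1 (show 1 ≤ 18 by norm_num)
      rwa [pow_one] at this
    exact ⟨h3.trans h2, by linarith⟩
  have hqc := hCon.cont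
  obtain ⟨S, hSdef⟩ : ∃ S : Set E5, S = {b | ∃ (σ : ℝ) (v : E5), a * s ≤ σ ∧ σ ≤ s / a ∧
    ⟪(p : E5), v⟫_ℝ = 0 ∧ ‖v‖ ≤ s ^ (3 / 4 : ℝ) ∧ b = bv p σ v} := ⟨_, rfl⟩
  have hS1 : ∀ b ∈ S, ‖b‖ < 1 := by
    intro b hb
    rw [hSdef] at hb
    obtain ⟨σ, v, h1, h2, h3, h4, rfl⟩ := hb
    obtain ⟨g1, g2, g3, g4⟩ := hσ σ h1 h2
    have h5 := (hl σ g1 g3 g4).2.1
    unfold bv
    rw [norm_smul, norm_wv h3, mul_one, Real.norm_of_nonneg (Real.sqrt_nonneg _)]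
    exact h5
  have hSb : ∀ b ∈ S, SB (fun x => q (mob b x)) (T0 * X ^ 30) := by
    intro b hb
    rw [hSdef] at hb
    obtain ⟨σ, v, h1, h2, h3, h4, rfl⟩ := hb
    obtain ⟨g1, g2, g3, g4⟩ := hσ σ h1 h2
    obtain ⟨f1, f2, f3⟩ := hl σ g1 g3 g4
    obtain ⟨d1, d2⟩ := hd v h3 h4
    have h5 := hS q k B M hCon (wS p v h3) (√(1 - σ ^ 2)) σ (‖wv p v - (p : E5)‖)
      (hl0.trans f1) f2 f3.symm rfl d2
    have h6 := ar3 hXp hX1 hA hk hkX hB0 hBX hM0 hMX g1 g2 (norm_nonneg _) d1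
    intro x
    refine (h5 x).trans ?_
    calc CS * (k * (σ ^ 2 + ‖wv p v - (p : E5)‖ ^ 2) + B * (σ ^ 3 + ‖wv p v - (p : E5)‖ ^ 3) +
          M * σ ^ (10 / 3 : ℝ)) ≤ CS * (5 * A ^ 4 * X ^ 30) := mul_le_mul_of_nonneg_left h6 hCS
      _ = T0 * X ^ 30 := by rw [hT0]; ring
  have hX30 : X ^ 30 ≤ X := by
    have := pow_le_pow_of_le_one hXp.le hX1 (show 1 ≤ 30 by norm_num)
    rwa [pow_one] at this
  have hτ1 : T0 * X ^ 30 ≤ τ₀ := by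
    rw [le_div_iff₀ (by positivity)] at k4
    calc T0 * X ^ 30 ≤ T0 * X₀ := mul_le_mul_of_nonneg_left (hX30.trans hXX) hT0n
      _ ≤ X₀ * (T0 + 1) := by nlinarith
      _ ≤ τ₀ := k4
  have hτ2 : CR * (T0 * X ^ 30) ≤ 1 / 4 := by
    rw [le_div_iff₀ (by positivity)] at k5
    have h1 : CR * (T0 * X ^ 30) ≤ CR * (T0 * X₀) := by
      have := hX30.trans hXX
      gcongr
    nlinarith
  obtain ⟨β, hβc, hβ1, hβ2⟩ := hR S q (T0 * X ^ 30) hS1 hqc (by positivity) hτ1 hSb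
  refine ⟨β, ?_, ?_⟩
  · rw [hSdef] at hβc
    exact hβc
  intro σ v h1 h2 h3 h4
  obtain ⟨g1, g2, g3, g4⟩ := hσ σ h1 h2
  obtain ⟨f1, f2, f3⟩ := hl σ g1 g3 g4
  obtain ⟨d1, d2⟩ := hd v h3 h4
  have hbS : bv p σ v ∈ S := by rw [hSdef]; exact ⟨σ, v, h1, h2, h3, h4, rfl⟩
  have hb1 := hS1 _ hbS
  have hwb : bv p σ v = √(1 - σ ^ 2) • (wS p v h3 : E5) := rfl
  have hl12 : 1 / 2 ≤ √(1 - σ ^ 2) := hl0.trans f1
  have hmobc : Continuous (mob (bv p σ v)) := by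
    rw [continuous_iff_continuousAt]
    intro x
    have h1 := H54.mos_all.1.comp_continuous (f := fun x : S4 => (bv p σ v, x))
      (continuous_const.prodMk continuous_id) (fun x => hb1)
    exact h1.continuousAt
  refine ⟨fun h0 => ?_, ?_⟩
  · obtain ⟨w, hIE, hw⟩ := hβ2 _ hbS h0
    refine ⟨w, hIE, ?_⟩
    have hV : sig.real {y : S4 | ρ ≤ ‖(mob (bv p σ v) y : E5) - (p : E5)‖} ≤ CF * σ ^ 4 := by
      have h5 := (hF (wS p v h3) (wS p v h3) (√(1 - σ ^ 2)) hl12 f2).2.2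
      have h6 : {y : S4 | ρ ≤ ‖(mob (bv p σ v) y : E5) - (p : E5)‖} ⊆
          {y : S4 | ρ / 2 ≤ ‖(mob (√(1 - σ ^ 2) • (wS p v h3 : E5)) y : E5) -
            (wS p v h3 : E5)‖} := by
        intro y hy
        have h7 : ρ ≤ ‖(mob (bv p σ v) y : E5) - (p : E5)‖ := hy
        have h8 : ‖(mob (bv p σ v) y : E5) - (p : E5)‖ ≤
            ‖(mob (bv p σ v) y : E5) - wv p v‖ + ‖wv p v - (p : E5)‖ := by
          have := norm_add_le ((mob (bv p σ v) y : E5) - wv p v) (wv p v - (p : E5))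
          rwa [sub_add_sub_cancel] at this
        show ρ / 2 ≤ ‖(mob (bv p σ v) y : E5) - wv p v‖
        linarith
      have h7 : (1 - (√(1 - σ ^ 2)) ^ 2) ^ 2 = σ ^ 4 := by
        have h8 : 0 ≤ 1 - (√(1 - σ ^ 2)) ^ 2 := by
          have h9 : (√(1 - σ ^ 2)) ^ 2 ≤ 1 := by
            have := Real.sqrt_nonneg (1 - σ ^ 2)
            nlinarith
          linarith
        have h9 := Real.sq_sqrt h8
        rw [f3] at h9
        rw [← h9]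
        ring
      rw [h7] at h5
      exact (measureReal_mono h6).trans h5
    have h5 := mass_le hb1 hM0 hCon.far (fun y => (hw y).trans hτ2) hV
    refine h5.trans ?_
    have h6 := ar4 hXp hX1 hA hk hkX hM0 hMX g1 g2
    rw [le_div_iff₀ (by positivity)] at k6
    calc 3 * (6 + M) * (CF * σ ^ 4) = 3 * CF * ((6 + M) * σ ^ 4) := by ring
      _ ≤ 3 * CF * (7 * A ^ 4 * X) := mul_le_mul_of_nonneg_left h6 (by positivity)
      _ = 21 * CF * A ^ 4 * X := by ring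
      _ ≤ 21 * CF * A ^ 4 * X₀ := mul_le_mul_of_nonneg_left hXX (by positivity)
      _ ≤ msig := by nlinarith
  -- the two components
  obtain ⟨j₁, j₂, a1, a2, a3, a4, a5, a6⟩ := hX q k B M hCon (wS p v h3) (√(1 - σ ^ 2)) σ
    (‖wv p v - (p : E5)‖) f1 f2 f3.symm rfl d2
  refine ⟨j₁, j₂, a1, a2, a3, a4, ?_, ?_⟩
  all_goals rw [← e3]
  · exact comp_le hqc hmobc (wv p v) (norm_wv h3).le (hβ1 _ hbS) hk hXp hX1 hCR.le a5
      (ar1 hXp hX1 hA hk hB0 hBX hM0 hMX g1 g2 (norm_nonneg _) d1) hCX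
  · intro e he1 he2
    have h5 := a6 e he1 he2
    rw [← sub_neg_eq_add] at h5 ⊢
    exact comp_le hqc hmobc e he2 (hβ1 _ hbS) hk hXp hX1 hCR.le h5
      (ar2 hXp hX1 hA hk hB0 hBX hM0 hMX g1 g2 (norm_nonneg _) d1) hCX

end Pool.Agent.PQP.H87
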