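import Pool.Agent.PQP.StmtsE
import Pool.Agent.Helper54_FLX.All

/-!
# Row pqp GRH (MP_5f32e0_gt): the gradient of the hyperbolic harmonic extension
-/

set_option autoImplicit false
set_option linter.unusedSectionVars false

open scoped InnerProductSpace Topology ContDiff Manifold
open MeasureTheory Filter Set

noncomputable section

namespace Pool.Agent.PQP.H87

open Pool.Agent.Helper42_Paneitz Pool.Agent.Helper82_Vir Pool.Agent.FLX Pool.Agent.PQP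

/-! ### differentiation under the integral sign -/

section param
variable {W : Type} [NormedAddCommGroup W] [NormedSpace ℝ W] [CompleteSpace W]
  {K : E5 → E5 → W}
  (hK : ∀ b z : E5, ‖b‖ < 1 → ‖z‖ = 1 → ContDiffAt ℝ 2 (fun x : E5 × E5 => K x.1 x.2) (b, z))

include hK

theorem hasD {b z : E5} (hb : ‖b‖ < 1) (hz : ‖z‖ = 1) :
    HasFDerivAt (fun b => K b z)
      ((fderiv ℝ (fun x : E5 × E5 => K x.1 x.2) (b, z)).comp (ContinuousLinearMap.inl ℝ E5 E5)) b := by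
  have h1 : HasFDerivAt (fun x : E5 × E5 => K x.1 x.2)
      (fderiv ℝ (fun x : E5 × E5 => K x.1 x.2) (b, z)) (b, z) :=
    ((hK b z hb hz).differentiableAt (by norm_num)).hasFDerivAt
  have h2 : HasFDerivAt (fun b : E5 => ((b, z) : E5 × E5)) (ContinuousLinearMap.inl ℝ E5 E5) b := by
    have := (hasFDerivAt_id (𝕜 := ℝ) b).prodMk (hasFDerivAt_const (𝕜 := ℝ) z b)
    exact this
  exact h1.comp b h2

/-- the partial derivative -/
theorem contD : ContinuousOn (fun x : E5 × S4 =>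
    (fderiv ℝ (fun x : E5 × E5 => K x.1 x.2) (x.1, (x.2 : E5))).comp
      (ContinuousLinearMap.inl ℝ E5 E5)) (Metric.ball 0 1 ×ˢ univ) := by
  rintro ⟨b, z⟩ ⟨hb, -⟩
  have hb' : ‖b‖ < 1 := mem_ball_zero_iff.1 hb
  have h1 : ContinuousAt (fderiv ℝ (fun x : E5 × E5 => K x.1 x.2)) (b, (z : E5)) :=
    ((hK b z hb' (S4_norm z)).fderiv_right (m := 1) (by norm_num)).continuousAt
  have h2 : ContinuousAt (fun x : E5 × S4 => ((x.1, (x.2 : E5)) : E5 × E5)) (b, z) := by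
    fun_prop
  have h3 : ContinuousAt (fun x : E5 × S4 =>
      fderiv ℝ (fun x : E5 × E5 => K x.1 x.2) (x.1, (x.2 : E5))) (b, z) :=
    ContinuousAt.comp (f := fun x : E5 × S4 => ((x.1, (x.2 : E5)) : E5 × E5)) h1 h2
  exact (h3.clm_comp continuousAt_const).continuousWithinAt

theorem contK {b : E5} (hb : ‖b‖ < 1) : Continuous fun z : S4 => K b (z : E5) := by
  rw [continuous_iff_continuousAt]
  intro z
  have h1 := (hK b z hb (S4_norm z)).continuousAt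
  have h2 : ContinuousAt (fun z : S4 => ((b, (z : E5)) : E5 × E5)) z := by fun_prop
  exact ContinuousAt.comp (f := fun z : S4 => ((b, (z : E5)) : E5 × E5)) h1 h2

theorem contD1 {b : E5} (hb : ‖b‖ < 1) : Continuous fun z : S4 =>
    (fderiv ℝ (fun x : E5 × E5 => K x.1 x.2) (b, (z : E5))).comp
      (ContinuousLinearMap.inl ℝ E5 E5) := by
  have h1 := (contD hK).comp_continuous (f := fun z : S4 => (b, z))
    (continuous_const.prodMk continuous_id) (fun z => ⟨mem_ball_zero_iff.2 hb, mem_univ _⟩)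
  exact h1

theorem param {ψ : S4 → ℝ} (hψ : Continuous ψ) {b₀ : E5} (hb₀ : ‖b₀‖ < 1) :
    HasFDerivAt (fun b => ∫ z : S4, ψ z • K b (z : E5) ∂sig)
      (∫ z : S4, ψ z • (fderiv ℝ (fun x : E5 × E5 => K x.1 x.2) (b₀, (z : E5))).comp
        (ContinuousLinearMap.inl ℝ E5 E5) ∂sig) b₀ := by
  obtain ⟨ε, hε, hball⟩ : ∃ ε > 0, Metric.closedBall b₀ ε ⊆ Metric.ball (0 : E5) 1 := by
    have h1 : Metric.ball (0 : E5) 1 ∈ 𝓝 b₀ :=
      Metric.isOpen_ball.mem_nhds (mem_ball_zero_iff.2 hb₀)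
    exact Metric.nhds_basis_closedBall.mem_iff.1 h1
  -- the bound
  have hc : ContinuousOn (fun x : E5 × S4 =>
      ψ x.2 • (fderiv ℝ (fun x : E5 × E5 => K x.1 x.2) (x.1, (x.2 : E5))).comp
      (ContinuousLinearMap.inl ℝ E5 E5)) (Metric.closedBall b₀ ε ×ˢ univ) :=
    ((hψ.comp continuous_snd).continuousOn).smul ((contD hK).mono (prod_mono hball le_rfl))
  obtain ⟨C, hC⟩ := ((isCompact_closedBall b₀ ε).prod isCompact_univ).exists_bound_of_continuousOn hc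
  refine hasFDerivAt_integral_of_dominated_of_fderiv_le (𝕜 := ℝ)
    (F := fun b (z : S4) => ψ z • K b (z : E5))
    (F' := fun b (z : S4) => ψ z • (fderiv ℝ (fun x : E5 × E5 => K x.1 x.2) (b, (z : E5))).comp
        (ContinuousLinearMap.inl ℝ E5 E5)) (bound := fun _ => C)
    (Metric.ball_mem_nhds b₀ hε) ?_ ?_ ?_ ?_ ?_ ?_
  · filter_upwards [Metric.isOpen_ball.mem_nhds (mem_ball_zero_iff.2 hb₀ : b₀ ∈ Metric.ball 0 1)]
      with b hb
    exact (hψ.smul (contK hK (mem_ball_zero_iff.1 hb))).aestronglyMeasurable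
  · exact Continuous.integrable_of_hasCompactSupport (hψ.smul (contK hK hb₀))
      (HasCompactSupport.of_compactSpace _)
  · exact (hψ.smul (contD1 hK hb₀)).aestronglyMeasurable
  · refine Eventually.of_forall fun z b hb => ?_
    exact hC (b, z) ⟨Metric.ball_subset_closedBall hb, mem_univ _⟩
  · exact integrable_const C
  · refine Eventually.of_forall fun z b hb => ?_
    have hb1 : ‖b‖ < 1 := mem_ball_zero_iff.1 (hball (Metric.ball_subset_closedBall hb))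
    exact (hasD hK hb1 (S4_norm z)).const_smul (ψ z)

theorem param_c1 {ψ : S4 → ℝ} (hψ : Continuous ψ) {b₀ : E5} (hb₀ : ‖b₀‖ < 1) :
    ContDiffAt ℝ 1 (fun b => ∫ z : S4, ψ z • K b (z : E5) ∂sig) b₀ := by
  rw [contDiffAt_one_iff]
  refine ⟨fun b => ∫ z : S4, ψ z • (fderiv ℝ (fun x : E5 × E5 => K x.1 x.2) (b, (z : E5))).comp
        (ContinuousLinearMap.inl ℝ E5 E5) ∂sig, Metric.ball 0 1,
    Metric.isOpen_ball.mem_nhds (mem_ball_zero_iff.2 hb₀), ?_, fun b hb => ?_⟩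
  · refine continuousOn_integral_of_compact_support (k := univ) isCompact_univ ?_ ?_
    · exact ((hψ.comp continuous_snd).continuousOn).smul (contD hK)
    · intro b z _ hz
      exact absurd (mem_univ z) hz
  · exact param hK hψ (mem_ball_zero_iff.1 hb)

end param

/-! ### the kernels -/

/-- the Jacobian as a function of the parameter -/
def kJ (b z : E5) : ℝ := (1 - ‖b‖ ^ 2) ^ 2 / (1 - ⟪b, z⟫_ℝ) ^ 4

/-- the kernel of `bal` -/
def kB (b z : E5) : E5 := kJ b z • mobE (-b) z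

theorem pos1 {b : E5} (hb : ‖b‖ < 1) : 0 < 1 - ‖b‖ ^ 2 := by
  have := norm_nonneg b
  nlinarith

theorem pos2 {b z : E5} (hb : ‖b‖ < 1) (hz : ‖z‖ = 1) : 0 < 1 - ⟪b, z⟫_ℝ := by
  have h1 := real_inner_le_norm b z
  rw [hz, mul_one] at h1
  linarith

theorem smooth_kJ (b z : E5) (hb : ‖b‖ < 1) (hz : ‖z‖ = 1) :
    ContDiffAt ℝ 2 (fun x : E5 × E5 => kJ x.1 x.2) (b, z) := by
  unfold kJ
  have h1 : ContDiffAt ℝ 2 (fun x : E5 × E5 => (1 - ‖x.1‖ ^ 2) ^ 2) (b, z) :=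
    (contDiffAt_const.sub (contDiffAt_fst.norm_sq ℝ)).pow 2
  have h2 : ContDiffAt ℝ 2 (fun x : E5 × E5 => (1 - ⟪x.1, x.2⟫_ℝ) ^ 4) (b, z) :=
    (contDiffAt_const.sub (contDiffAt_fst.inner ℝ contDiffAt_snd)).pow 4
  exact h1.div h2 (pow_ne_zero 4 (pos2 hb hz).ne')

theorem smooth_kB (b z : E5) (hb : ‖b‖ < 1) (hz : ‖z‖ = 1) :
    ContDiffAt ℝ 2 (fun x : E5 × E5 => kB x.1 x.2) (b, z) := by
  unfold kB mobE
  refine (smooth_kJ b z hb hz).smul ?_
  have hin : ContDiffAt ℝ 2 (fun x : E5 × E5 => ⟪-x.1, x.2⟫_ℝ) (b, z) :=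
    contDiffAt_fst.neg.inner ℝ contDiffAt_snd
  have h1 : ContDiffAt ℝ 2 (fun x : E5 × E5 => 1 + ⟪-x.1, x.2⟫_ℝ) (b, z) :=
    contDiffAt_const.add hin
  have h1n : 1 + ⟪-b, z⟫_ℝ ≠ 0 := by
    rw [inner_neg_left]
    have := pos2 hb hz
    linarith
  have h2 : ContDiffAt ℝ 2 (fun x : E5 × E5 => sq (-x.1)) (b, z) := by
    unfold Pool.Agent.FLX.sq
    have h3 : ContDiffAt ℝ 2 (fun x : E5 × E5 => 1 - ‖-x.1‖ ^ 2) (b, z) :=
      contDiffAt_const.sub (contDiffAt_fst.neg.norm_sq ℝ)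
    refine h3.sqrt ?_
    show 1 - ‖-b‖ ^ 2 ≠ 0
    rw [norm_neg]
    exact (pos1 hb).ne'
  have h3 : (1 + sq (-b)) ≠ 0 := by
    have : 0 ≤ sq (-b) := Real.sqrt_nonneg _
    linarith
  have h5 : ContDiffAt ℝ 2 (fun x : E5 × E5 =>
      (1 + ⟪-x.1, x.2⟫_ℝ / (1 + Pool.Agent.FLX.sq (-x.1))) • -x.1) (b, z) :=
    ContDiffAt.smul (contDiffAt_const.add (hin.div (contDiffAt_const.add h2) h3))
      contDiffAt_fst.neg
  exact (h1.inv h1n).smul ((h2.smul contDiffAt_snd).add h5)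

theorem line_kJ {b z : E5} (v : E5) (hb : ‖b‖ < 1) (hz : ‖z‖ = 1) :
    HasDerivAt (fun t : ℝ => kJ (b + t • v) z)
      (kJ b z * (-(4 * ⟪b, v⟫_ℝ / (1 - ‖b‖ ^ 2)) + 4 * ⟪z, v⟫_ℝ / (1 - ⟪b, z⟫_ℝ))) 0 := by
  have h1 : HasDerivAt (fun t : ℝ => 1 - ‖b + t • v‖ ^ 2) (-(2 * ⟪b, v⟫_ℝ)) 0 := by
    have e : (fun t : ℝ => 1 - ‖b + t • v‖ ^ 2) =
        fun t : ℝ => 1 - (‖b‖ ^ 2 + 2 * ⟪b, v⟫_ℝ * t + ‖v‖ ^ 2 * t ^ 2) := by
      funext t
      rw [norm_add_sq_real, real_inner_smul_right, norm_smul, mul_pow, Real.norm_eq_abs, sq_abs]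
      ring
    rw [e]
    have h2 : HasDerivAt (fun t : ℝ => ‖b‖ ^ 2 + 2 * ⟪b, v⟫_ℝ * t + ‖v‖ ^ 2 * t ^ 2)
        (0 + 2 * ⟪b, v⟫_ℝ * 1 + ‖v‖ ^ 2 * (2 * 0 ^ 1 * 1)) 0 := by
      refine ((hasDerivAt_const _ _).add ((hasDerivAt_id _).const_mul _)).add ?_
      have h3 := ((hasDerivAt_id (0 : ℝ)).pow 2).const_mul (‖v‖ ^ 2)
      simpa using h3
    have h3 := (hasDerivAt_const (0 : ℝ) (1 : ℝ)).sub h2
    refine h3.congr_deriv ?_
    ring
  have h2 : HasDerivAt (fun t : ℝ => 1 - ⟪b + t • v, z⟫_ℝ) (-⟪z, v⟫_ℝ) 0 := by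
    have e : (fun t : ℝ => 1 - ⟪b + t • v, z⟫_ℝ) = fun t : ℝ => 1 - (⟪b, z⟫_ℝ + ⟪z, v⟫_ℝ * t) := by
      funext t
      rw [inner_add_left, real_inner_smul_left, real_inner_comm z v]
      ring
    rw [e]
    have h3 : HasDerivAt (fun t : ℝ => ⟪b, z⟫_ℝ + ⟪z, v⟫_ℝ * t) (0 + ⟪z, v⟫_ℝ * 1) 0 :=
      (hasDerivAt_const _ _).add ((hasDerivAt_id _).const_mul _)
    have h4 := (hasDerivAt_const (0 : ℝ) (1 : ℝ)).sub h3
    refine h4.congr_deriv ?_
    ring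
  have hp1 := (pos1 hb).ne'
  have hp2 := (pos2 hb hz).ne'
  have e0 : b + (0 : ℝ) • v = b := by rw [zero_smul, add_zero]
  have h3 := (h1.pow 2).div (h2.pow 4) (by
    show (1 - ⟪b + (0 : ℝ) • v, z⟫_ℝ) ^ 4 ≠ 0
    rw [e0]
    exact pow_ne_zero 4 hp2)
  refine h3.congr_deriv ?_
  simp only [Pi.pow_apply, e0]
  unfold kJ
  field_simp
  ring

/-- the partial derivative of `kJ` -/
theorem D_kJ {b z : E5} (v : E5) (hb : ‖b‖ < 1) (hz : ‖z‖ = 1) :
    ((fderiv ℝ (fun x : E5 × E5 => kJ x.1 x.2) (b, z)).comp (ContinuousLinearMap.inl ℝ E5 E5)) v =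
      kJ b z * (-(4 * ⟪b, v⟫_ℝ / (1 - ‖b‖ ^ 2)) + 4 * ⟪z, v⟫_ℝ / (1 - ⟪b, z⟫_ℝ)) := by
  have h1 := hasD smooth_kJ hb hz
  have h2 : HasDerivAt (fun t : ℝ => b + t • v) v 0 := by
    have := ((hasDerivAt_id (0 : ℝ)).smul_const v).const_add b
    simpa using this
  have e0 : b + (0 : ℝ) • v = b := by rw [zero_smul, add_zero]
  have h3 : HasFDerivAt (fun b => kJ b z)
      ((fderiv ℝ (fun x : E5 × E5 => kJ x.1 x.2) (b, z)).comp (ContinuousLinearMap.inl ℝ E5 E5))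
      (b + (0 : ℝ) • v) := by rw [e0]; exact h1
  have h4 := h3.comp_hasDerivAt (0 : ℝ) h2
  exact h4.unique (line_kJ v hb hz)

theorem Jac_neg (b : E5) (z : S4) : Jac (-b) z = kJ b (z : E5) := by
  unfold Jac kJ
  rw [norm_neg, inner_neg_left, ← sub_eq_add_neg]

theorem mob_inv {b : E5} (hb : ‖b‖ < 1) (z : S4) : mob b (mob (-b) z) = z := by
  have hb' : ‖-b‖ < 1 := by rwa [norm_neg]
  have h1 := (H54.moa_all (-b) hb').2.2.2.1 z
  rwa [neg_neg] at h1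

/-- change of variables -/
theorem change {b : E5} (hb : ‖b‖ < 1) (ψ g : S4 → ℝ) :
    ∫ y, ψ (mob b y) * g y ∂sig = ∫ z : S4, ψ z * (kJ b (z : E5) * g (mob (-b) z)) ∂sig := by
  have hb' : ‖-b‖ < 1 := by rwa [norm_neg]
  rw [← H54.mom_all (-b) hb' (fun y => ψ (mob b y) * g y)]
  refine integral_congr_ae (Eventually.of_forall fun z => ?_)
  show ψ (mob b (mob (-b) z)) * g (mob (-b) z) * Jac (-b) z = _
  rw [mob_inv hb, Jac_neg]
  ring

theorem Hx_eq {b : E5} (hb : ‖b‖ < 1) (ψ : S4 → ℝ) :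
    Hx ψ b = (1 / msig) * ∫ z : S4, ψ z • kJ b (z : E5) ∂sig := by
  have h1 := change hb ψ (fun _ => 1)
  simp only [mul_one] at h1
  unfold Hx avg
  rw [h1]
  simp only [smul_eq_mul]
  ring

theorem cont_kJ {b : E5} (hb : ‖b‖ < 1) : Continuous fun z : S4 => kJ b (z : E5) :=
  contK smooth_kJ hb

theorem cont_kB {b : E5} (hb : ‖b‖ < 1) : Continuous fun z : S4 => kB b (z : E5) :=
  contK smooth_kB hb

theorem cont_mob' {b : E5} (hb : ‖b‖ < 1) : Continuous (mob b) := by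
  rw [continuous_iff_continuousAt]
  intro x
  have h1 := H54.mos_all.1.comp_continuous (f := fun x : S4 => (b, x))
    (continuous_const.prodMk continuous_id) (fun x => hb)
  exact h1.continuousAt

theorem bal_inner {b : E5} (hb : ‖b‖ < 1) {ψ : S4 → ℝ} (hψ : Continuous ψ) (e : E5) :
    ⟪e, bal ψ b⟫_ℝ = ∫ y, ψ (mob b y) * ⟪e, (y : E5)⟫_ℝ ∂sig :=
  H40.inner_integral_smul (h := fun y => ψ (mob b y)) (hψ.comp (cont_mob' hb)) e

theorem bal_eq {b : E5} (hb : ‖b‖ < 1) {ψ : S4 → ℝ} (hψ : Continuous ψ) :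
    bal ψ b = ∫ z : S4, ψ z • kB b (z : E5) ∂sig := by
  refine ext_inner_left ℝ fun e => ?_
  rw [bal_inner hb hψ, change hb ψ (fun y => ⟪e, (y : E5)⟫_ℝ)]
  have hi : Integrable (fun z : S4 => ψ z • kB b (z : E5)) sig :=
    Continuous.integrable_of_hasCompactSupport (hψ.smul (cont_kB hb))
      (HasCompactSupport.of_compactSpace _)
  rw [← integral_inner hi]
  refine integral_congr_ae (Eventually.of_forall fun z => ?_)
  have hb' : ‖-b‖ < 1 := by rwa [norm_neg]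
  have h1 : (mob (-b) z : E5) = mobE (-b) (z : E5) := (H54.moa_all (-b) hb').2.1 z
  show ψ z * (kJ b (z : E5) * ⟪e, (mob (-b) z : E5)⟫_ℝ) = ⟪e, ψ z • kB b (z : E5)⟫_ℝ
  unfold kB
  rw [h1, real_inner_smul_right, real_inner_smul_right]

theorem grh : GrhStmt := by
  intro ψ b hψs hb
  have hψ : Continuous ψ := continuous_of_sm hψs
  have hm := msig_pos
  have hball : Metric.ball (0 : E5) 1 ∈ 𝓝 b :=
    Metric.isOpen_ball.mem_nhds (mem_ball_zero_iff.2 hb)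
  refine ⟨?_, ?_⟩
  · have h1 := (param smooth_kJ hψ hb).const_mul (1 / msig)
    have h2 : Hx ψ =ᶠ[𝓝 b] fun b => (1 / msig) * ∫ z : S4, ψ z • kJ b (z : E5) ∂sig := by
      filter_upwards [hball] with b' hb'
      exact Hx_eq (mem_ball_zero_iff.1 hb') ψ
    refine (h1.congr_of_eventuallyEq h2).congr_fderiv ?_
    ext v
    have hi : Integrable (fun z : S4 => ψ z • (fderiv ℝ (fun x : E5 × E5 => kJ x.1 x.2)
        (b, (z : E5))).comp (ContinuousLinearMap.inl ℝ E5 E5)) sig :=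
      Continuous.integrable_of_hasCompactSupport (hψ.smul (contD1 smooth_kJ hb))
        (HasCompactSupport.of_compactSpace _)
    rw [ContinuousLinearMap.smul_apply, ContinuousLinearMap.integral_apply hi]
    have h3 : ∫ z : S4, (ψ z • (fderiv ℝ (fun x : E5 × E5 => kJ x.1 x.2) (b, (z : E5))).comp
        (ContinuousLinearMap.inl ℝ E5 E5)) v ∂sig =
        ∫ y, ψ (mob b y) * (4 / (1 - ‖b‖ ^ 2) * (sq b * ⟪v, (y : E5)⟫_ℝ +
          ⟪b, v⟫_ℝ / (1 + sq b) * ⟪b, (y : E5)⟫_ℝ)) ∂sig := by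
      rw [change hb]
      refine integral_congr_ae (Eventually.of_forall fun z => ?_)
      show ψ z • ((fderiv ℝ (fun x : E5 × E5 => kJ x.1 x.2) (b, (z : E5))).comp
        (ContinuousLinearMap.inl ℝ E5 E5)) v = _
      rw [D_kJ v hb (S4_norm z), smul_eq_mul]
      congr 2
      -- the geometry
      obtain ⟨y, hy⟩ : ∃ y : S4, y = mob (-b) z := ⟨_, rfl⟩
      have hz : z = mob b y := by rw [hy, mob_inv hb]
      rw [← hy]
      obtain ⟨g1, g2, g3, g4, g5, g6⟩ := H54.moa_all b hb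
      have hpy := g1 y
      have h5 := g5 y
      rw [← hz] at h5
      have hp1 := pos1 hb
      have hz' : (z : E5) = mobE b (y : E5) := by rw [hz]; exact g2 y
      have h6 : ⟪(z : E5), v⟫_ℝ = (1 + ⟪b, (y : E5)⟫_ℝ)⁻¹ * (sq b * ⟪v, (y : E5)⟫_ℝ +
          (1 + ⟪b, (y : E5)⟫_ℝ / (1 + sq b)) * ⟪b, v⟫_ℝ) := by
        rw [hz']
        unfold mobE
        rw [real_inner_smul_left, inner_add_left, real_inner_smul_left, real_inner_smul_left,
          real_inner_comm v (y : E5)]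
      have h7 : 1 - ⟪b, (z : E5)⟫_ℝ = (1 - ‖b‖ ^ 2) / (1 + ⟪b, (y : E5)⟫_ℝ) := by
        rw [eq_div_iff hpy.ne']
        exact h5
      have hs : 0 < 1 + sq b := by
        have : 0 ≤ sq b := Real.sqrt_nonneg _
        linarith
      rw [h6, h7]
      field_simp
      ring
    rw [h3]
    have i1 : Integrable (fun y : S4 => ψ (mob b y) * ⟪v, (y : E5)⟫_ℝ) sig :=
      integrable_cont ((hψ.comp (cont_mob' hb)).mul
        (continuous_const.inner continuous_subtype_val))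
    have i2 : Integrable (fun y : S4 => ψ (mob b y) * ⟪b, (y : E5)⟫_ℝ) sig :=
      integrable_cont ((hψ.comp (cont_mob' hb)).mul
        (continuous_const.inner continuous_subtype_val))
    have h4 : ∫ y, ψ (mob b y) * (4 / (1 - ‖b‖ ^ 2) * (sq b * ⟪v, (y : E5)⟫_ℝ +
          ⟪b, v⟫_ℝ / (1 + sq b) * ⟪b, (y : E5)⟫_ℝ)) ∂sig =
        4 / (1 - ‖b‖ ^ 2) * (sq b * ⟪v, bal ψ b⟫_ℝ +
          ⟪b, v⟫_ℝ / (1 + sq b) * ⟪b, bal ψ b⟫_ℝ) := by
      rw [bal_inner hb hψ, bal_inner hb hψ, ← integral_const_mul, ← integral_const_mul,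
        ← integral_add (i1.const_mul _) (i2.const_mul _), ← integral_const_mul]
      refine integral_congr_ae (Eventually.of_forall fun y => ?_)
      show ψ (mob b y) * (4 / (1 - ‖b‖ ^ 2) * (sq b * ⟪v, (y : E5)⟫_ℝ +
          ⟪b, v⟫_ℝ / (1 + sq b) * ⟪b, (y : E5)⟫_ℝ)) = 4 / (1 - ‖b‖ ^ 2) *
          (sq b * (ψ (mob b y) * ⟪v, (y : E5)⟫_ℝ) +
            ⟪b, v⟫_ℝ / (1 + sq b) * (ψ (mob b y) * ⟪b, (y : E5)⟫_ℝ))
      ring
    rw [h4, innerSL_apply_apply, real_inner_smul_left, inner_add_left, real_inner_smul_left,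
      real_inner_smul_left, real_inner_comm v (bal ψ b), smul_eq_mul]
    field_simp
  · have h2 : bal ψ =ᶠ[𝓝 b] fun b => ∫ z : S4, ψ z • kB b (z : E5) ∂sig := by
      filter_upwards [hball] with b' hb'
      exact bal_eq (mem_ball_zero_iff.1 hb') hψ
    exact (param_c1 smooth_kB hψ hb).congr_of_eventuallyEq h2

end Pool.Agent.PQP.H87
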